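import Pool.Agent.Helper70.Matching.Specs4
import Pool.Agent.Helper70.Matching.PMBasic

/-! Packet M-D4: rounding of i.i.d. uniform points, and scaling.  helper35. -/

set_option autoImplicit false
open Finset Filter Topology MeasureTheory ProbabilityTheory

namespace Pool.Agent.Helper35.Matching

open Pool.Agent.Helper70.Matching

noncomputable section

/-- one coordinate of the rounding map -/
def rnd (N : ℕ) (hN : 0 < N) (t : ℝ) : Fin N := ⟨min ⌊(N : ℝ) * t⌋₊ (N - 1), by omega⟩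

theorem toSite_eq (N : ℕ) (hN : 0 < N) (x : ℝ × ℝ) :
    toSite N hN x = (rnd N hN x.1, rnd N hN x.2) := rfl

theorem measurable_rnd (N : ℕ) (hN : 0 < N) : Measurable (rnd N hN) := by
  have h1 : Measurable (fun m : ℕ => (⟨min m (N - 1), by omega⟩ : Fin N)) := measurable_from_nat
  have h2 : Measurable (fun t : ℝ => ⌊(N : ℝ) * t⌋₊) :=
    Nat.measurable_floor.comp (measurable_const.mul measurable_id)
  exact h1.comp h2

theorem measurable_toSite (N : ℕ) (hN : 0 < N) : Measurable (toSite N hN) :=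
  ((measurable_rnd N hN).comp measurable_fst).prodMk ((measurable_rnd N hN).comp measurable_snd)

/-- the bounds given by rounding -/
theorem rnd_bounds {N : ℕ} (hN : 0 < N) {t : ℝ} (h0 : 0 ≤ t) (h1 : t ≤ 1) :
    ((rnd N hN t : ℕ) : ℝ) ≤ N * t ∧ (N : ℝ) * t ≤ ((rnd N hN t : ℕ) : ℝ) + 1 := by
  have hNt : (0 : ℝ) ≤ N * t := by positivity
  have hfl := Nat.floor_le hNt
  have hlt := Nat.lt_floor_add_one ((N : ℝ) * t)
  have hval : ((rnd N hN t : Fin N) : ℕ) = min ⌊(N : ℝ) * t⌋₊ (N - 1) := rfl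
  rw [hval]
  rcases le_total ⌊(N : ℝ) * t⌋₊ (N - 1) with h | h
  · rw [min_eq_left h]
    exact ⟨hfl, hlt.le⟩
  · rw [min_eq_right h]
    constructor
    · exact le_trans (by exact_mod_cast h) hfl
    · have h3 : ((N - 1 : ℕ) : ℝ) + 1 = N := by
        have : N - 1 + 1 = N := by omega
        exact_mod_cast this
      rw [h3]
      have : (0 : ℝ) ≤ N := by positivity
      nlinarith

theorem rnd_of_mem {N : ℕ} (hN : 0 < N) {t : ℝ} (j : Fin N) (h0 : ((j : ℕ) : ℝ) ≤ N * t)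
    (h1 : (N : ℝ) * t < ((j : ℕ) : ℝ) + 1) : rnd N hN t = j := by
  have hfl : ⌊(N : ℝ) * t⌋₊ = (j : ℕ) := by
    rw [Nat.floor_eq_iff (le_trans (by positivity) h0)]
    exact ⟨h0, h1⟩
  apply Fin.ext
  have hval : ((rnd N hN t : Fin N) : ℕ) = min ⌊(N : ℝ) * t⌋₊ (N - 1) := rfl
  rw [hval, hfl]
  have := j.2
  omega

theorem vol_rnd {N : ℕ} (hN : 0 < N) (j : Fin N) :
    volume ((rnd N hN) ⁻¹' {j} ∩ Set.Icc (0:ℝ) 1) = ENNReal.ofReal (1 / N) := by
  have hNr : (0 : ℝ) < N := by exact_mod_cast hN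
  have hlen : ((((j : ℕ) : ℝ) + 1) / N - ((j : ℕ) : ℝ) / N) = 1 / N := by
    field_simp; ring
  apply le_antisymm
  · have hsub : (rnd N hN) ⁻¹' {j} ∩ Set.Icc (0:ℝ) 1 ⊆
        Set.Icc (((j : ℕ) : ℝ) / N) ((((j : ℕ) : ℝ) + 1) / N) := by
      rintro t ⟨ht, ht0, ht1⟩
      have ht' : rnd N hN t = j := ht
      have := rnd_bounds hN ht0 ht1
      rw [ht'] at this
      constructor
      · rw [div_le_iff₀ hNr]; linarith [this.1]
      · rw [le_div_iff₀ hNr]; linarith [this.2]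
    calc _ ≤ volume (Set.Icc (((j : ℕ) : ℝ) / N) ((((j : ℕ) : ℝ) + 1) / N)) := measure_mono hsub
      _ = _ := by rw [Real.volume_Icc, hlen]
  · have hsub : Set.Ico (((j : ℕ) : ℝ) / N) ((((j : ℕ) : ℝ) + 1) / N) ⊆
        (rnd N hN) ⁻¹' {j} ∩ Set.Icc (0:ℝ) 1 := by
      rintro t ⟨h1, h2⟩
      rw [div_le_iff₀ hNr] at h1
      rw [lt_div_iff₀ hNr] at h2
      refine ⟨?_, ?_, ?_⟩
      · exact rnd_of_mem hN j (by linarith) (by linarith)
      · have : (0 : ℝ) ≤ t * N := le_trans (by positivity) h1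
        exact nonneg_of_mul_nonneg_left this hNr
      · have hj : ((j : ℕ) : ℝ) + 1 ≤ N := by exact_mod_cast j.2
        have : t * N < 1 * N := by linarith
        exact (lt_of_mul_lt_mul_right this hNr.le).le
    calc _ = volume (Set.Ico (((j : ℕ) : ℝ) / N) ((((j : ℕ) : ℝ) + 1) / N)) := by
          rw [Real.volume_Ico, hlen]
      _ ≤ _ := measure_mono hsub

theorem vol_toSite {N : ℕ} (hN : 0 < N) (v : Site N) :
    (volume.restrict (Set.Icc (0:ℝ) 1 ×ˢ Set.Icc (0:ℝ) 1)) (toSite N hN ⁻¹' {v}) =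
      ENNReal.ofReal (1 / N) * ENNReal.ofReal (1 / N) := by
  rw [Measure.restrict_apply (measurable_toSite N hN (measurableSet_singleton v))]
  have : toSite N hN ⁻¹' {v} ∩ Set.Icc (0:ℝ) 1 ×ˢ Set.Icc (0:ℝ) 1 =
      ((rnd N hN) ⁻¹' {v.1} ∩ Set.Icc (0:ℝ) 1) ×ˢ ((rnd N hN) ⁻¹' {v.2} ∩ Set.Icc (0:ℝ) 1) := by
    ext x
    simp only [Set.mem_inter_iff, Set.mem_preimage, Set.mem_singleton_iff, toSite_eq, Set.mem_prod,
      Prod.ext_iff]
    tauto
  rw [this, Measure.volume_eq_prod, Measure.prod_prod, vol_rnd, vol_rnd]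

theorem map_coe_aux {β : Type} (k : ℕ) (f : ℕ → β) :
    (univ : Finset (Fin k)).val.map f = (univ : Finset (Fin k)).val.map (fun i : Fin k => f (i : ℕ)) := by
  simp only [Multiset.bind_def, Multiset.pure_def, Multiset.bind_singleton, Multiset.map_map]
  rfl

theorem round1 : ∀ (Ω : Type) [MeasurableSpace Ω] (P : Measure Ω) [IsProbabilityMeasure P] (X : ℕ → Ω → ℝ × ℝ),
    (∀ i, Measurable (X i)) → iIndepFun X P →
    (∀ i, P.map (X i) = volume.restrict (Set.Icc (0:ℝ) 1 ×ˢ Set.Icc (0:ℝ) 1)) →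
    ∀ (N : ℕ) (hN : 0 < N) (k : ℕ) (φ : Multiset (Site N) → ℂ),
      ∫ ω, φ ((univ : Finset (Fin k)).val.map (fun i => toSite N hN (X i ω))) ∂P = Av N k φ := by
  intro Ω _ P _ X hX hind hlaw N hN k φ
  set Y : Ω → (Fin k → Site N) := fun ω i => toSite N hN (X i ω) with hY
  have hYm : Measurable Y := measurable_pi_lambda _ fun i => (measurable_toSite N hN).comp (hX i)
  set F : (Fin k → Site N) → ℂ := fun v => φ ((univ : Finset (Fin k)).val.map v) with hF
  have hFm : StronglyMeasurable F := (measurable_of_countable F).stronglyMeasurable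
  have e1 : ∫ ω, φ ((univ : Finset (Fin k)).val.map (fun i => toSite N hN (X i ω))) ∂P
      = ∫ v, F v ∂(P.map Y) := by
    rw [integral_map hYm.aemeasurable hFm.aestronglyMeasurable]
    refine integral_congr_ae (Eventually.of_forall fun ω => ?_)
    exact congrArg φ (map_coe_aux k (fun i => toSite N hN (X i ω)))
  rw [e1]
  have : IsProbabilityMeasure (P.map Y) := Measure.isProbabilityMeasure_map hYm.aemeasurable
  rw [integral_fintype (Integrable.of_finite)]
  have hind' : iIndepFun (fun i : Fin k => X i) P := hind.precomp Fin.val_injective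
  have hind2 : iIndepFun (fun i : Fin k => toSite N hN ∘ X i) P :=
    hind'.comp (fun _ => toSite N hN) (fun _ => measurable_toSite N hN)
  have hNr : (0 : ℝ) < N := by exact_mod_cast hN
  have key : ∀ v : Fin k → Site N, (P.map Y).real {v} = ((((N : ℝ) ^ 2) ^ k)⁻¹) := by
    intro v
    rw [Measure.real, Measure.map_apply hYm (measurableSet_singleton v)]
    have hset : Y ⁻¹' {v} = ⋂ i ∈ (univ : Finset (Fin k)), (toSite N hN ∘ X i) ⁻¹' {v i} := by
      ext ω
      simp only [Set.mem_preimage, Set.mem_singleton_iff, Set.mem_iInter, Finset.mem_univ,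
        forall_true_left, Function.comp_apply, hY, funext_iff]
    rw [hset, hind2.measure_inter_preimage_eq_mul univ (fun i _ => measurableSet_singleton _)]
    have h1 : ∀ i : Fin k, P ((toSite N hN ∘ X i) ⁻¹' {v i}) =
        ENNReal.ofReal (1 / N) * ENNReal.ofReal (1 / N) := by
      intro i
      rw [Set.preimage_comp, ← Measure.map_apply (hX i)
        (measurable_toSite N hN (measurableSet_singleton _)), hlaw i]
      exact vol_toSite hN (v i)
    rw [Finset.prod_congr rfl (fun i _ => h1 i), Finset.prod_const, Finset.card_univ,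
      Fintype.card_fin, ENNReal.toReal_pow, ENNReal.toReal_mul,
      ENNReal.toReal_ofReal (by positivity)]
    rw [← inv_pow]
    congr 1
    field_simp
  rw [Av, Finset.mul_sum]
  refine Finset.sum_congr rfl fun v _ => ?_
  rw [key v, Complex.real_smul]
  congr 1
  push_cast
  rfl

theorem round2 : ∀ (N : ℕ) (hN : 0 < N) (h : ℝ) (x : ℝ × ℝ), 0 < h → 0 ≤ x.1 → x.1 ≤ 1 → 0 ≤ x.2 →
    x.2 ≤ 1 → dist ((N * h : ℝ) • (⟨x.1, x.2⟩ : ℂ)) (pos h (toSite N hN x)) ≤ h := by
  intro N hN h x hh h1 h2 h3 h4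
  obtain ⟨a1, a2⟩ := rnd_bounds hN h1 h2
  obtain ⟨b1, b2⟩ := rnd_bounds hN h3 h4
  rw [toSite_eq, Complex.dist_eq_re_im]
  rw [Real.sqrt_le_left hh.le]
  simp only [pos, Complex.real_smul, Complex.mul_re, Complex.mul_im, Complex.ofReal_re,
    Complex.ofReal_im, zero_mul, sub_zero, add_zero]
  have e1 : ((N : ℝ) * h * x.1 - (((rnd N hN x.1 : ℕ) : ℝ) + 1 / 2) * h) ^ 2 ≤ h ^ 2 / 4 := by
    have : (N : ℝ) * h * x.1 - (((rnd N hN x.1 : ℕ) : ℝ) + 1 / 2) * h =
      h * (N * x.1 - ((rnd N hN x.1 : ℕ) : ℝ) - 1 / 2) := by ring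
    rw [this, mul_pow]
    have h5 : (N * x.1 - ((rnd N hN x.1 : ℕ) : ℝ) - 1 / 2) ^ 2 ≤ 1 / 4 := by nlinarith
    nlinarith [sq_nonneg h]
  have e2 : ((N : ℝ) * h * x.2 - (((rnd N hN x.2 : ℕ) : ℝ) + 1 / 2) * h) ^ 2 ≤ h ^ 2 / 4 := by
    have : (N : ℝ) * h * x.2 - (((rnd N hN x.2 : ℕ) : ℝ) + 1 / 2) * h =
      h * (N * x.2 - ((rnd N hN x.2 : ℕ) : ℝ) - 1 / 2) := by ring
    rw [this, mul_pow]
    have h5 : (N * x.2 - ((rnd N hN x.2 : ℕ) : ℝ) - 1 / 2) ^ 2 ≤ 1 / 4 := by nlinarith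
    nlinarith [sq_nonneg h]
  nlinarith [sq_nonneg h]

theorem round : Spec_round := ⟨round1, round2⟩

theorem PM_scale {r : ℝ} (hr : 0 ≤ r) {P : Multiset ℂ} {c : ℝ} (h : PM P c) :
    PM (P.map (fun z => (r : ℝ) • z)) (r * c) := by
  induction h with
  | nil => simpa using PM.nil
  | cons x y h ih =>
    have h1 := PM.cons ((r : ℝ) • x) ((r : ℝ) • y) ih
    simp only [Multiset.map_cons]
    refine h1.cast rfl ?_
    rw [dist_smul₀, Real.norm_of_nonneg hr]
    ring

theorem MF_empty_eq (P : Multiset ℂ) : MF ∅ P = sInf {c | PM P c} := by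
  unfold MF
  congr 1
  ext c
  constructor
  · rintro ⟨Z, hZ, h⟩
    have : Z = 0 := Multiset.eq_zero_of_forall_notMem (fun z hz => hZ z hz)
    subst this
    simpa using h
  · intro h
    exact ⟨0, by simp, by simpa using h⟩

theorem scale : Spec_scale := by
  intro P r hr
  rw [MF_empty_eq, MF_empty_eq, ← smul_eq_mul, ← Real.sInf_smul_of_nonneg hr.le]
  congr 1
  ext c
  constructor
  · intro h
    have h1 := PM_scale (r := r⁻¹) (by positivity) h
    have h2 : (P.map (fun z => (r : ℝ) • z)).map (fun z => (r⁻¹ : ℝ) • z) = P := by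
      rw [Multiset.map_map]
      conv_rhs => rw [← Multiset.map_id P]
      refine Multiset.map_congr rfl fun z _ => ?_
      simp only [Function.comp_apply, id]
      rw [smul_smul, inv_mul_cancel₀ hr.ne', one_smul]
    rw [h2] at h1
    exact ⟨r⁻¹ * c, h1, by simp [hr.ne']⟩
  · rintro ⟨d, hd, rfl⟩
    exact PM_scale hr.le hd

end

end Pool.Agent.Helper35.Matching
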